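import Pool.Agent.N965.LN.Asm1
import Pool.Agent.N965.LN.Cnt
import Pool.Agent.N965.LN.Err
import Pool.Agent.N965.LN.Fej
import Pool.Agent.N965.LN.Ftl
import Pool.Agent.N965.LN.Ks
import Pool.Agent.N965.LN.Ps
import Pool.Agent.N965.LN.Psi

/-!
# Rational approximations of the elements of translates of modules of algebraic numbers (helper95)
-/

set_option autoImplicit false

open Finset Filter Topology
open Pool.Agent.N965.LN

namespace Run7.h95.LG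

/-- the coefficient vectors of the numbers with a good approximation of denominator in `[Q, X]` -/
def Fail {m : ℕ} (ξ : Fin m → ℝ) (ψ : ℕ → ℝ) (β : ℝ) (Q : ℕ) (X : ℝ) (H : ℕ) : Set (Fin m → ℤ) :=
  {a | (∀ i, |a i| ≤ (H : ℤ)) ∧ ∃ (p : ℤ) (q : ℕ), 1 ≤ q ∧ Q ≤ q ∧ (q : ℝ) ≤ X ∧
    |β + ∑ i, (a i : ℝ) * ξ i - (p : ℝ) / q| ≤ ψ q / q}

theorem dn_sub (x y : ℝ) : dn (x - y) ≤ dn x + dn y := by
  have h1 : dn (x - y) ≤ |x - y - ((round x - round y : ℤ) : ℝ)| := round_le (x - y) _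
  refine h1.trans ?_
  unfold dn
  push_cast
  have h2 : x - y - ((round x : ℝ) - round y) = (x - round x) - (y - round y) := by ring
  rw [h2]
  exact abs_sub _ _

theorem mem_box {m H : ℕ} (a : Fin m → ℤ) : a ∈ box m H ↔ ∀ i, |a i| ≤ (H : ℤ) := by
  unfold Pool.Agent.N965.LN.box
  rw [Fintype.mem_piFinset]
  refine forall_congr' fun i => ?_
  rw [mem_Icc, abs_le]

/-- the vectors with `q (β + a ξ)` near an integer -/
noncomputable def Sq {m : ℕ} (ξ : Fin m → ℝ) (β : ℝ) (H q : ℕ) (δ : ℝ) : Finset (Fin m → ℤ) :=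
  (box m H).filter fun a => dn ((q : ℝ) * (β + ∑ i, (a i : ℝ) * ξ i)) ≤ δ

theorem card_Sq {m : ℕ} (ξ : Fin m → ℝ) (β : ℝ) (H q : ℕ) (δ : ℝ) :
    (Sq ξ β H q δ).card ≤ ((box m (2 * H)).filter fun a =>
      dn (∑ i, (a i : ℝ) * ((q : ℝ) * ξ i)) ≤ 2 * δ).card := by
  classical
  rcases (Sq ξ β H q δ).eq_empty_or_nonempty with h0 | ⟨a0, ha0⟩
  · rw [h0]; simp
  refine Finset.card_le_card_of_injOn (fun a => a - a0) ?_ ?_
  · intro a ha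
    unfold Sq at ha ha0
    rw [Finset.mem_coe, mem_filter, mem_box] at ha
    rw [mem_filter, mem_box] at ha0
    rw [Finset.mem_coe, mem_filter, mem_box]
    refine ⟨fun i => ?_, ?_⟩
    · have h1 := ha.1 i
      have h2 := ha0.1 i
      simp only [Pi.sub_apply]
      push_cast
      have h3 := abs_sub (a i) (a0 i)
      linarith
    · have h1 : ∑ i, (((a - a0) i : ℤ) : ℝ) * ((q : ℝ) * ξ i) =
          (q : ℝ) * (β + ∑ i, (a i : ℝ) * ξ i) - (q : ℝ) * (β + ∑ i, (a0 i : ℝ) * ξ i) := by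
        rw [← mul_sub, add_sub_add_left_eq_sub, ← Finset.sum_sub_distrib, Finset.mul_sum]
        refine Finset.sum_congr rfl fun i _ => ?_
        simp only [Pi.sub_apply]
        push_cast
        ring
      rw [h1]
      refine (dn_sub _ _).trans ?_
      linarith [ha.2, ha0.2]
  · intro a _ b _ hab
    simpa using hab

/-- the count for one `q` -/
theorem card_one {m : ℕ} (ξ : Fin m → ℝ) (β : ℝ) (H q : ℕ) (hH : 1 ≤ H) (δ : ℝ) (hδ : 0 < δ) :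
    ((Sq ξ β H q δ).card : ℝ) ≤ 20 * 8 ^ m * δ * (H : ℝ) ^ m +
      40 * δ * ∑ v ∈ Icc 1 ⌊1 / (2 * (2 * δ))⌋₊, ∏ i, KK (2 * H) (((v * q : ℕ) : ℝ) * ξ i) := by
  classical
  have hH' : (1 : ℝ) ≤ H := by exact_mod_cast hH
  have h1 : ((Sq ξ β H q δ).card : ℝ) ≤ (((box m (2 * H)).filter fun a =>
      dn (∑ i, (a i : ℝ) * ((q : ℝ) * ξ i)) ≤ 2 * δ).card : ℝ) := by
    exact_mod_cast card_Sq ξ β H q δ
  refine h1.trans ?_
  have h8 : (4 * ((2 * H : ℕ) : ℝ)) ^ m = 8 ^ m * (H : ℝ) ^ m := by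
    rw [← mul_pow]
    congr 1
    push_cast
    ring
  have hS : 0 ≤ ∑ v ∈ Icc 1 ⌊1 / (2 * (2 * δ))⌋₊, ∏ i, KK (2 * H) (((v * q : ℕ) : ℝ) * ξ i) :=
    Finset.sum_nonneg fun _ _ => Finset.prod_nonneg fun _ _ => KK_nonneg _ _
  rcases le_or_gt (2 * δ) (1 / 2) with hle | hgt
  · have h2 := t_FEJ m (2 * H) (fun i => (q : ℝ) * ξ i) (2 * δ) (by omega) (by linarith) hle
    rw [h8] at h2
    refine h2.trans (le_of_eq ?_)
    have h3 : ∑ v ∈ Icc 1 ⌊1 / (2 * (2 * δ))⌋₊, ∏ i, KK (2 * H) ((v : ℝ) * ((q : ℝ) * ξ i)) =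
        ∑ v ∈ Icc 1 ⌊1 / (2 * (2 * δ))⌋₊, ∏ i, KK (2 * H) (((v * q : ℕ) : ℝ) * ξ i) := by
      refine Finset.sum_congr rfl fun v _ => Finset.prod_congr rfl fun i _ => ?_
      congr 1
      push_cast
      ring
    rw [h3]
    ring
  · have h2 : (((box m (2 * H)).filter fun a =>
        dn (∑ i, (a i : ℝ) * ((q : ℝ) * ξ i)) ≤ 2 * δ).card : ℝ) ≤ ((box m (2 * H)).card : ℝ) := by
      exact_mod_cast Finset.card_filter_le _ _
    have h3 := card_box_le m (2 * H) (by omega)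
    have h4 : (3 * ((2 * H : ℕ) : ℝ)) ^ m ≤ 8 ^ m * (H : ℝ) ^ m := by
      rw [← mul_pow]
      apply pow_le_pow_left₀ (by positivity)
      push_cast
      linarith
    have h5 : (0 : ℝ) ≤ 8 ^ m * (H : ℝ) ^ m := by positivity
    have h6 : 8 ^ m * (H : ℝ) ^ m ≤ 20 * 8 ^ m * δ * (H : ℝ) ^ m := by
      have : (1 : ℝ) ≤ 20 * δ := by linarith
      nlinarith
    have h7 : 0 ≤ 40 * δ *
        ∑ v ∈ Icc 1 ⌊1 / (2 * (2 * δ))⌋₊, ∏ i, KK (2 * H) (((v * q : ℕ) : ℝ) * ξ i) := by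
      positivity
    linarith

theorem fail_sub {m : ℕ} (ξ : Fin m → ℝ) (ψ ψ' : ℕ → ℝ) (hψ : ∀ n, ψ n ≤ ψ' n) (β : ℝ) (Q : ℕ)
    (hQ : 1 ≤ Q) (Y : ℝ) (X H : ℕ) (hX : ⌊Y⌋₊ ≤ X) :
    Fail ξ ψ β Q Y H ⊆ (((Icc Q X).biUnion fun q => Sq ξ β H q (ψ' q) :
      Finset (Fin m → ℤ)) : Set (Fin m → ℤ)) := by
  rintro a ⟨h1, p, q, h2, h3, h4, h5⟩
  rw [Finset.mem_coe, Finset.mem_biUnion]
  refine ⟨q, mem_Icc.2 ⟨h3, (Nat.le_floor h4).trans hX⟩, ?_⟩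
  unfold Sq
  rw [mem_filter, mem_box]
  refine ⟨h1, ?_⟩
  have hq : (0 : ℝ) < q := by exact_mod_cast h2
  refine (round_le _ p).trans ?_
  have h9 : (q : ℝ) * (β + ∑ i, (a i : ℝ) * ξ i) - p =
      q * (β + ∑ i, (a i : ℝ) * ξ i - (p : ℝ) / q) := by
    field_simp
  rw [h9, abs_mul, abs_of_pos hq]
  have h10 := mul_le_mul_of_nonneg_left h5 hq.le
  refine h10.trans (le_trans (le_of_eq ?_) (hψ q))
  field_simp

theorem fail_card {m : ℕ} (ξ : Fin m → ℝ) (ψ ψ' : ℕ → ℝ) (hψ : ∀ n, ψ n ≤ ψ' n) (β : ℝ) (Q : ℕ)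
    (hQ : 1 ≤ Q) (Y : ℝ) (X H : ℕ) (hX : ⌊Y⌋₊ ≤ X) :
    ((Fail ξ ψ β Q Y H).ncard : ℝ) ≤ ∑ q ∈ Icc Q X, ((Sq ξ β H q (ψ' q)).card : ℝ) := by
  classical
  have h1 := Set.ncard_le_ncard (fail_sub ξ ψ ψ' hψ β Q hQ Y X H hX) (Finset.finite_toSet _)
  rw [Set.ncard_coe_finset] at h1
  have h3 : ((Icc Q X).biUnion fun q => Sq ξ β H q (ψ' q)).card ≤
      ∑ q ∈ Icc Q X, (Sq ξ β H q (ψ' q)).card := Finset.card_biUnion_le
  exact_mod_cast h1.trans h3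

theorem tail_sum (f : ℕ → ℝ) (hf : ∀ n, 0 ≤ f n) (hs : Summable f) (Q X : ℕ) :
    ∑ q ∈ Icc Q X, f q ≤ ∑' n, f (n + Q) := by
  have h1 : Summable fun n => f (n + Q) := (summable_nat_add_iff Q).2 hs
  have h2 : ∑ q ∈ Icc Q X, f q = ∑ i ∈ range (X + 1 - Q), f (i + Q) := by
    rw [Finset.range_eq_Ico, Finset.sum_Ico_add' f 0 (X + 1 - Q) Q]
    apply Finset.sum_congr
    · ext x
      simp only [mem_Icc, mem_Ico]
      omega
    · intro _ _; rfl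
  rw [h2]
  exact h1.sum_le_tsum _ fun n _ => hf _

/-- extraction of the terms with `g = b = 1` from the error term -/
theorem err_one {m : ℕ} (ξ : Fin m → ℝ) (hFT : FT ξ) (τ : ℝ) (hτ0 : 0 < τ) (hτ1 : τ ≤ 1)
    (ψ : ℕ → ℝ) (hψ0 : ∀ n, 0 < ψ n) (hψ : Antitone ψ) (hs : Summable ψ) (D : ℝ) (hD0 : 0 < D)
    (hD : ∀ n : ℕ, 1 ≤ n → (n : ℝ) ^ (-(1 + τ)) ≤ D * ψ n) :
    ∃ C : ℝ, 0 < C ∧ ∀ H X : ℕ, 1 ≤ H → 1 ≤ X →
      ∑ t ∈ Icc 1 X, ψ t * (∑ v ∈ Icc 1 ⌊1 / (2 * (2 * ψ t))⌋₊,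
        ∏ i, KK (2 * H) (((v * t : ℕ) : ℝ) * ξ i)) ≤ C * (H : ℝ) ^ τ * (X : ℝ) ^ (1 + 4 * τ) := by
  obtain ⟨C, hC, h⟩ := t_ERR t_PS t_PSI m ξ hFT τ hτ0 hτ1 ψ hψ0 hψ hs D hD0 hD 2 (by norm_num)
  refine ⟨C * 2 ^ τ, by positivity, fun H X hH hX => ?_⟩
  have hH' : (0 : ℝ) < H := by exact_mod_cast hH
  have h1 := h (2 * H) X (by omega) hX
  set G : ℕ → ℕ → ℝ := fun g b => ∑ t ∈ Icc 1 (X / g), ((2 * H : ℕ) : ℝ) * ψ (g * t) *
      (∑ v ∈ Icc 1 ⌊1 / (2 * ((b : ℝ) * (2 * ψ (g * t))))⌋₊,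
        ∏ i, KK (2 * H) (((v * t : ℕ) : ℝ) * ξ i)) with hG
  have hG0 : ∀ g b, 0 ≤ G g b := by
    intro g b
    refine Finset.sum_nonneg fun t _ => mul_nonneg (mul_nonneg (by positivity) (hψ0 _).le) ?_
    exact Finset.sum_nonneg fun _ _ => Finset.prod_nonneg fun _ _ => KK_nonneg _ _
  have h2 : G 1 1 ≤ ∑ b ∈ Icc 1 (2 * H / 1), G 1 b :=
    Finset.single_le_sum (f := fun b => G 1 b) (fun b _ => hG0 1 b) (by
      rw [mem_Icc]
      constructor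
      · exact le_rfl
      · rw [Nat.div_one]; omega)
  have h3 : ∑ b ∈ Icc 1 (2 * H / 1), G 1 b ≤ ∑ g ∈ Icc 1 (2 * H), ∑ b ∈ Icc 1 (2 * H / g), G g b :=
    Finset.single_le_sum (f := fun g => ∑ b ∈ Icc 1 (2 * H / g), G g b)
      (fun g _ => Finset.sum_nonneg fun b _ => hG0 g b) (by
        rw [mem_Icc]
        constructor
        · exact le_rfl
        · omega)
  have h4 : G 1 1 ≤ C * ((2 * H : ℕ) : ℝ) ^ (1 + τ) * (X : ℝ) ^ (1 + 4 * τ) :=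
    (h2.trans h3).trans h1
  have h5 : G 1 1 = (2 * (H : ℝ)) * ∑ t ∈ Icc 1 X, ψ t * (∑ v ∈ Icc 1 ⌊1 / (2 * (2 * ψ t))⌋₊,
        ∏ i, KK (2 * H) (((v * t : ℕ) : ℝ) * ξ i)) := by
    simp only [hG, Nat.div_one, one_mul, Nat.cast_one]
    rw [Finset.mul_sum]
    refine Finset.sum_congr rfl fun t _ => ?_
    push_cast
    ring
  rw [h5] at h4
  have h6 : ((2 * H : ℕ) : ℝ) ^ (1 + τ) = (2 * (H : ℝ)) * (2 ^ τ * (H : ℝ) ^ τ) := by
    push_cast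
    rw [Real.rpow_add (by positivity), Real.rpow_one, Real.mul_rpow (by norm_num) hH'.le]
  rw [h6] at h4
  have h7 : C * (2 * (H : ℝ) * (2 ^ τ * (H : ℝ) ^ τ)) * (X : ℝ) ^ (1 + 4 * τ) =
      (2 * (H : ℝ)) * (C * 2 ^ τ * (H : ℝ) ^ τ * (X : ℝ) ^ (1 + 4 * τ)) := by ring
  rw [h7] at h4
  exact le_of_mul_le_mul_left h4 (by positivity)

/-- **Main theorem** for vectors with the property FT. -/
theorem main {m : ℕ} (hm : 1 ≤ m) (ξ : Fin m → ℝ) (hFT : FT ξ) (κ : ℝ) (hκ : κ < m) (ψ : ℕ → ℝ)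
    (hψ0 : ∀ n, 0 ≤ ψ n) (hψ : Antitone ψ) (hs : Summable ψ) (Q : ℕ) (hQ : 1 ≤ Q) (δ : ℝ)
    (hδ : 0 < δ) :
    ∃ H₀ : ℕ, ∀ (β : ℝ) (H : ℕ), H₀ ≤ H → ((Fail ξ ψ β Q ((H : ℝ) ^ κ) H).ncard : ℝ) ≤
      (20 * 8 ^ m * ∑' n, ψ (n + Q) + δ) * (H : ℝ) ^ m := by
  set κ' := max κ 0 with hκ'
  have hκ0 : 0 ≤ κ' := le_max_right _ _
  have hκκ : κ ≤ κ' := le_max_left _ _
  have hm0 : (1 : ℝ) ≤ m := by exact_mod_cast hm
  have hκm : κ' < m := max_lt hκ (by linarith)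
  set τ := min 1 (((m : ℝ) - κ') / (2 * (1 + 4 * κ'))) with hτ
  have hτ0 : 0 < τ := lt_min one_pos (div_pos (by linarith) (by positivity))
  have hτ1 : τ ≤ 1 := min_le_left _ _
  have hτ2 : τ * (1 + 4 * κ') ≤ ((m : ℝ) - κ') / 2 := by
    have h1 : τ ≤ ((m : ℝ) - κ') / (2 * (1 + 4 * κ')) := min_le_right _ _
    have h2 : 0 < 1 + 4 * κ' := by positivity
    calc τ * (1 + 4 * κ') ≤ ((m : ℝ) - κ') / (2 * (1 + 4 * κ')) * (1 + 4 * κ') :=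
          mul_le_mul_of_nonneg_right h1 h2.le
      _ = ((m : ℝ) - κ') / 2 := by field_simp
  set e := ((m : ℝ) + κ') / 2 with he
  have he1 : τ + κ' * (1 + 4 * τ) ≤ e := by
    have : τ + κ' * (1 + 4 * τ) = κ' + τ * (1 + 4 * κ') := by ring
    rw [this, he]
    linarith
  have he2 : 0 < (m : ℝ) - e := by
    rw [he]
    linarith
  -- the auxiliary function
  set B : ℝ := 20 * 8 ^ m with hB
  have hB0 : 0 < B := by positivity
  set f : ℕ → ℝ := fun n => ((n : ℝ) + 1) ^ (-(1 + τ)) with hf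
  have hf0 : ∀ n, 0 < f n := fun n => by
    simp only [hf]
    positivity
  have hfa : Antitone f := by
    intro a b hab
    simp only [hf]
    apply Real.rpow_le_rpow_of_nonpos (by positivity) _ (by linarith)
    have : (a : ℝ) ≤ b := by exact_mod_cast hab
    linarith
  have hfs : Summable f := by
    have h1 : Summable (fun n : ℕ => ((n : ℝ)) ^ (-(1 + τ))) :=
      Real.summable_nat_rpow.2 (by linarith)
    have h2 := (summable_nat_add_iff 1).2 h1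
    refine h2.congr fun n => ?_
    simp only [hf]
    push_cast
    rfl
  set F := ∑' n, f n with hF
  have hF0 : 0 < F := hfs.tsum_pos (fun n => (hf0 n).le) 0 (hf0 0)
  set c₀ : ℝ := δ / (2 * B * F) with hc₀
  have hc₀0 : 0 < c₀ := by positivity
  set φ : ℕ → ℝ := fun n => c₀ * f n with hφ
  have hφ0 : ∀ n, 0 < φ n := fun n => mul_pos hc₀0 (hf0 n)
  have hφa : Antitone φ := fun a b hab => mul_le_mul_of_nonneg_left (hfa hab) hc₀0.le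
  have hφs : Summable φ := hfs.mul_left c₀
  set ψ' : ℕ → ℝ := fun n => ψ n + φ n with hψ'
  have hψ'0 : ∀ n, 0 < ψ' n := fun n => by
    have h1 := hφ0 n
    have h2 := hψ0 n
    simp only [hψ']
    linarith
  have hle : ∀ n, ψ n ≤ ψ' n := fun n => by
    have h1 := hφ0 n
    simp only [hψ']
    linarith
  have hψ'a : Antitone ψ' := fun a b hab => add_le_add (hψ hab) (hφa hab)
  have hψ's : Summable ψ' := hs.add hφs
  have hD : ∀ n : ℕ, 1 ≤ n → (n : ℝ) ^ (-(1 + τ)) ≤ ((2 : ℝ) ^ (1 + τ) / c₀) * ψ' n := by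
    intro n hn
    have hn' : (1 : ℝ) ≤ n := by exact_mod_cast hn
    have h1 : (2 * (n : ℝ)) ^ (-(1 + τ)) ≤ f n := by
      simp only [hf]
      exact Real.rpow_le_rpow_of_nonpos (by positivity) (by linarith) (by linarith)
    have h2 : (2 * (n : ℝ)) ^ (-(1 + τ)) = (2 : ℝ) ^ (-(1 + τ)) * (n : ℝ) ^ (-(1 + τ)) :=
      Real.mul_rpow (by norm_num) (by positivity)
    have h3 : (2 : ℝ) ^ (1 + τ) * (2 : ℝ) ^ (-(1 + τ)) = 1 := by
      rw [← Real.rpow_add (by norm_num)]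
      simp
    have h4 : (0 : ℝ) < (2 : ℝ) ^ (1 + τ) := by positivity
    have h5 : f n = (1 / c₀) * φ n := by
      simp only [hφ]
      field_simp
    calc (n : ℝ) ^ (-(1 + τ)) = (2 : ℝ) ^ (1 + τ) * (2 * (n : ℝ)) ^ (-(1 + τ)) := by
          rw [h2, ← mul_assoc, h3, one_mul]
      _ ≤ (2 : ℝ) ^ (1 + τ) * f n := mul_le_mul_of_nonneg_left h1 h4.le
      _ = ((2 : ℝ) ^ (1 + τ) / c₀) * φ n := by rw [h5]; ring
      _ ≤ ((2 : ℝ) ^ (1 + τ) / c₀) * ψ' n := by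
          refine mul_le_mul_of_nonneg_left ?_ (by positivity)
          have := hψ0 n
          simp only [hψ']
          linarith
  obtain ⟨C, hC, hE⟩ := err_one ξ hFT τ hτ0 hτ1 ψ' hψ'0 hψ'a hψ's ((2 : ℝ) ^ (1 + τ) / c₀)
    (by positivity) hD
  obtain ⟨H₀, hH₀⟩ : ∃ H₀ : ℕ, ∀ H : ℕ, H₀ ≤ H →
      40 * C / (δ / 2) ≤ (H : ℝ) ^ ((m : ℝ) - e) := by
    have h1 := ((tendsto_rpow_atTop he2).comp tendsto_natCast_atTop_atTop).eventually_ge_atTop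
      (40 * C / (δ / 2))
    exact Filter.eventually_atTop.1 h1
  refine ⟨max H₀ 1, fun β H hHH => ?_⟩
  have hle0 : H₀ ≤ H := (le_max_left _ _).trans hHH
  have hH : 1 ≤ H := (le_max_right _ _).trans hHH
  have hH' : (1 : ℝ) ≤ H := by exact_mod_cast hH
  have hHp : (0 : ℝ) < H := by linarith
  set X := ⌊(H : ℝ) ^ κ'⌋₊ with hX
  have hX1 : 1 ≤ X := by
    apply Nat.le_floor
    rw [Nat.cast_one]
    exact Real.one_le_rpow hH' hκ0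
  have hXle : (X : ℝ) ≤ (H : ℝ) ^ κ' := Nat.floor_le (by positivity)
  have hXX : ⌊(H : ℝ) ^ κ⌋₊ ≤ X := Nat.floor_le_floor (Real.rpow_le_rpow_of_exponent_le hH' hκκ)
  have h1 := fail_card ξ ψ ψ' hle β Q hQ ((H : ℝ) ^ κ) X H hXX
  have h2 : ∑ q ∈ Icc Q X, ((Sq ξ β H q (ψ' q)).card : ℝ) ≤
      ∑ q ∈ Icc Q X, (B * ψ' q * (H : ℝ) ^ m) + 40 * ∑ q ∈ Icc 1 X, ψ' q *
        ∑ v ∈ Icc 1 ⌊1 / (2 * (2 * ψ' q))⌋₊, ∏ i, KK (2 * H) (((v * q : ℕ) : ℝ) * ξ i) := by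
    have h3 : ∑ q ∈ Icc Q X, ((Sq ξ β H q (ψ' q)).card : ℝ) ≤
        ∑ q ∈ Icc Q X, (B * ψ' q * (H : ℝ) ^ m + 40 * (ψ' q *
        ∑ v ∈ Icc 1 ⌊1 / (2 * (2 * ψ' q))⌋₊, ∏ i, KK (2 * H) (((v * q : ℕ) : ℝ) * ξ i))) := by
      refine Finset.sum_le_sum fun q _ => ?_
      refine (card_one ξ β H q hH (ψ' q) (hψ'0 q)).trans (le_of_eq ?_)
      rw [hB]
      ring
    refine h3.trans ?_
    rw [Finset.sum_add_distrib, ← Finset.mul_sum]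
    refine add_le_add le_rfl (mul_le_mul_of_nonneg_left ?_ (by norm_num))
    refine Finset.sum_le_sum_of_subset_of_nonneg ?_ fun q _ _ => ?_
    · exact Finset.Icc_subset_Icc hQ le_rfl
    · exact mul_nonneg (hψ'0 q).le
        (Finset.sum_nonneg fun _ _ => Finset.prod_nonneg fun _ _ => KK_nonneg _ _)
  have h3 : ∑ q ∈ Icc Q X, (B * ψ' q * (H : ℝ) ^ m) ≤
      (B * ∑' n, ψ (n + Q) + δ / 2) * (H : ℝ) ^ m := by
    have h4 : ∑ q ∈ Icc Q X, (B * ψ' q * (H : ℝ) ^ m) =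
        B * (∑ q ∈ Icc Q X, ψ q + ∑ q ∈ Icc Q X, φ q) * (H : ℝ) ^ m := by
      rw [← Finset.sum_add_distrib, Finset.mul_sum, Finset.sum_mul]
    rw [h4]
    have h5 := tail_sum ψ hψ0 hs Q X
    have h6 : ∑ q ∈ Icc Q X, φ q ≤ c₀ * F := by
      refine (hφs.sum_le_tsum _ fun n _ => (hφ0 n).le).trans (le_of_eq ?_)
      simp only [hφ]
      rw [tsum_mul_left]
    have h7 : B * (c₀ * F) = δ / 2 := by
      rw [hc₀]
      field_simp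
    have h8 : B * (∑ q ∈ Icc Q X, ψ q + ∑ q ∈ Icc Q X, φ q) ≤ B * ∑' n, ψ (n + Q) + δ / 2 := by
      rw [← h7, ← mul_add]
      exact mul_le_mul_of_nonneg_left (add_le_add h5 h6) hB0.le
    exact mul_le_mul_of_nonneg_right h8 (by positivity)
  have h4 := hE H X hH hX1
  have h5 : (X : ℝ) ^ (1 + 4 * τ) ≤ (H : ℝ) ^ (κ' * (1 + 4 * τ)) := by
    rw [Real.rpow_mul hHp.le]
    exact Real.rpow_le_rpow (by positivity) hXle (by positivity)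
  have h6 : C * (H : ℝ) ^ τ * (X : ℝ) ^ (1 + 4 * τ) ≤ C * (H : ℝ) ^ e := by
    calc C * (H : ℝ) ^ τ * (X : ℝ) ^ (1 + 4 * τ) ≤
          C * (H : ℝ) ^ τ * (H : ℝ) ^ (κ' * (1 + 4 * τ)) :=
          mul_le_mul_of_nonneg_left h5 (by positivity)
      _ = C * (H : ℝ) ^ (τ + κ' * (1 + 4 * τ)) := by
          rw [Real.rpow_add hHp τ, mul_assoc]
      _ ≤ C * (H : ℝ) ^ e :=
          mul_le_mul_of_nonneg_left (Real.rpow_le_rpow_of_exponent_le hH' he1) hC.le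
  have h7 : 40 * (C * (H : ℝ) ^ e) ≤ δ / 2 * (H : ℝ) ^ m := by
    have h8 := hH₀ H hle0
    rw [div_le_iff₀ (by positivity)] at h8
    have h9 : (H : ℝ) ^ m = (H : ℝ) ^ ((m : ℝ) - e) * (H : ℝ) ^ e := by
      rw [← Real.rpow_add hHp, ← Real.rpow_natCast]
      congr 1
      ring
    rw [h9]
    have h10 : (0 : ℝ) ≤ (H : ℝ) ^ e := by positivity
    calc 40 * (C * (H : ℝ) ^ e) = (40 * C) * (H : ℝ) ^ e := by ring
      _ ≤ ((H : ℝ) ^ ((m : ℝ) - e) * (δ / 2)) * (H : ℝ) ^ e :=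
          mul_le_mul_of_nonneg_right h8 h10
      _ = _ := by ring
  have h8 : 40 * ∑ q ∈ Icc 1 X, ψ' q *
        ∑ v ∈ Icc 1 ⌊1 / (2 * (2 * ψ' q))⌋₊, ∏ i, KK (2 * H) (((v * q : ℕ) : ℝ) * ξ i) ≤
      δ / 2 * (H : ℝ) ^ m := (mul_le_mul_of_nonneg_left (h4.trans h6) (by norm_num)).trans h7
  calc ((Fail ξ ψ β Q ((H : ℝ) ^ κ) H).ncard : ℝ) ≤
        (B * ∑' n, ψ (n + Q) + δ / 2) * (H : ℝ) ^ m + δ / 2 * (H : ℝ) ^ m :=
        h1.trans (h2.trans (add_le_add h3 h8))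
    _ = _ := by ring

end Run7.h95.LG
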